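import Pool.Agent.Helper87K9.Drn.Cnt

/-!
# Project DRN, piece NLB: two equal halves with root degree one
-/

set_option autoImplicit false

namespace Pool.Agent.Helper87K9.Drn

open Pool.Agent.Helper13K9.Drn

theorem Nn_zero (X : RT) : Nn 0 X = X := rfl

theorem Nn_succ (j : ℕ) (X : RT) : Nn (j + 1) X = node {Nn j X} :=
  Function.iterate_succ_apply' _ _ _

theorem size_single (X : RT) : size (node {X}) = size X + 1 := by
  rw [size_node, Multiset.map_singleton, Multiset.sum_singleton]; omega

theorem size_Nn (j : ℕ) (X : RT) : size (Nn j X) = size X + j := by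
  induction j with
  | zero => rfl
  | succ j ih => rw [Nn_succ, size_single, ih]; omega

/-- re-rooting along the tail -/
theorem ui_tail (Y : RT) : ∀ b a : ℕ, 1 ≤ a →
    UI (node (Pt a ::ₘ ch (Nn b Y))) (node (Pt (a + b) ::ₘ ch Y)) := by
  intro b
  induction b with
  | zero => intro a _; exact UI.refl _
  | succ b ih =>
    intro a ha
    have h1 := UI.re (Nn b Y) {Pt a}
    rw [← Pt_succ ha] at h1
    have h2 := ih (a + 1) (by omega)
    have e : a + 1 + b = a + (b + 1) := by omega
    rw [e] at h2
    rw [Nn_succ, ch_node, ← Multiset.insert_eq_cons, Multiset.pair_comm, Multiset.insert_eq_cons]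
    exact h1.trans h2

theorem ui_Nn (Y : RT) (j : ℕ) : UI (Nn (j + 1) Y) (node (Pt (j + 1) ::ₘ ch Y)) := by
  have h1 := UI.re (Nn j Y) 0
  have h2 := ui_tail Y j 1 (le_refl 1)
  have e : 1 + j = j + 1 := by omega
  rw [e] at h2
  rw [Nn_succ]
  exact h1.trans h2

/-- the sizes of the proper subtrees determine the tail -/
theorem tail_of_cnt {B : RT} : ∀ (j : ℕ) {Y : RT}, size Y = size (Nn j B) →
    (∀ v, cnt v Y = cnt v (Nn j B)) → ∃ Y', Y = Nn j Y' ∧ size Y' = size B ∧
      ∀ v, cnt v Y' = cnt v B := by
  intro j
  induction j with
  | zero => intro Y h1 h2; exact ⟨Y, rfl, h1, h2⟩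
  | succ j ih =>
    intro Y h1 h2
    have h3 := h2 (size (Nn j B))
    rw [Nn_succ, cnt_single, if_pos rfl] at h3
    have h4 : ∃ D ∈ ch Y, size D = size (Nn j B) := by
      by_contra hcon
      push Not at hcon
      have h5 : ∀ D ∈ ch Y, size D ≤ size (Nn j B) - 1 := by
        intro D hD
        have e1 := size_lt_of_mem hD
        rw [h1, Nn_succ, size_single] at e1
        have e2 := hcon D hD
        omega
      have h6 := cnt_of_le (v := size (Nn j B)) h5 (by have := size_pos (Nn j B); omega)
      omega
    obtain ⟨D, hD, hDs⟩ := h4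
    obtain ⟨M, hM⟩ := Multiset.exists_cons_of_mem hD
    have hM0 : M = 0 := by
      by_contra hne
      obtain ⟨E, hE⟩ := Multiset.exists_mem_of_ne_zero hne
      obtain ⟨M', rfl⟩ := Multiset.exists_cons_of_mem hE
      rw [← node_ch Y, hM, size_cons, size_cons, Nn_succ, size_single] at h1
      have e1 := size_pos E
      have e2 := size_pos (node M')
      omega
    subst hM0
    have hY : Y = node {D} := by rw [← node_ch Y, hM]; rfl
    obtain ⟨Y', h5, h6, h7⟩ := ih (Y := D) hDs (fun v => by
      have := h2 v
      rw [hY, Nn_succ, cnt_single, cnt_single, hDs] at this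
      omega)
    exact ⟨Y', by rw [Nn_succ, hY, h5], h6, h7⟩

/-- sizes in a homogeneous tree -/
theorem homog_size {B : RT} (hB : Homog B) (hk : 2 ≤ Multiset.card (ch B)) :
    ∃ s, 1 ≤ s ∧ (∀ D ∈ ch B, size D = s) ∧ size B = 1 + Multiset.card (ch B) * s := by
  obtain ⟨D, hD⟩ := Multiset.card_pos_iff_exists_mem.1 (by omega : 0 < Multiset.card (ch B))
  refine ⟨size D, size_pos D, fun E hE => hB E hE D hD, ?_⟩
  rw [size_eq]
  have : (ch B).map size = (ch B).map (fun _ => size D) :=
    Multiset.map_congr rfl (fun E hE => hB E hE D hD)
  rw [this, Multiset.map_const', Multiset.sum_replicate, smul_eq_mul]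

/-- Lemma β -/
theorem beta {B Y : RT} {j : ℕ} (hB : Homog B) (hk : 2 ≤ Multiset.card (ch B))
    (h : UI Y (Nn j B)) (h' : UI (node {node {Y}}) (node {node {Nn j B}})) : Y = Nn j B := by
  obtain ⟨s, hs, hsB, hsz⟩ := homog_size hB hk
  obtain ⟨Y', rfl, hYs, hcnt⟩ := tail_of_cnt j h.size_eq (cnt_eq_of_ui h h')
  have hY' : ∀ D ∈ ch Y', size D ≤ s := by
    intro D hD
    by_contra hcon
    have h1 := cnt_pos_of_mem hD
    rw [hcnt, cnt_of_le (s := s) (fun E hE => (hsB E hE).le) (by omega)] at h1
    omega
  have hks : 2 * s ≤ Multiset.card (ch B) * s := Nat.mul_le_mul_right s hk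
  rcases Nat.eq_zero_or_pos j with rfl | hj
  · -- `j = 0`
    rw [Nn_zero, Nn_zero] at h ⊢
    rcases (ui_iff _ _).1 h with h1 | ⟨F, M, h1, hin⟩
    · exact h1
    · exfalso
      obtain ⟨U, S, h2, h3, h4, h5⟩ := in_up hin
      have e1 := hY' F (by rw [h1]; simp)
      have e2 : size U = s := hsB U (by rw [h2]; simp)
      have e3 := h4.size_le
      have e4 : size Y' = size F + size (node M) := by rw [h1, size_cons]
      omega
  · obtain ⟨i, rfl⟩ : ∃ i, j = i + 1 := ⟨j - 1, by omega⟩
    have h0 : UI (node (Pt (i + 1) ::ₘ ch Y')) (node (Pt (i + 1) ::ₘ ch B)) :=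
      (ui_Nn Y' i).symm.trans (h.trans (ui_Nn B i))
    have sP : size (Pt (i + 1)) = i + 1 := size_Pt (by omega)
    rcases (ui_iff _ _).1 h0 with h1 | ⟨F, M, h1, hin⟩
    · rw [node_inj] at h1
      have h2 := Multiset.cons_inj_right _ |>.1 h1
      have h3 : Y' = B := by rw [← node_ch Y', h2, node_ch]
      rw [h3]
    · exfalso
      obtain ⟨U, S, h2, h3, h4, h5⟩ := in_up hin
      have e3 := h4.size_le
      have e4 : i + 1 + size Y' = size F + size (node M) := by
        rw [← size_cons, ← h1, size_cons, node_ch, sP]
      have e5 : U = Pt (i + 1) ∨ size U = s := by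
        have : U ∈ Pt (i + 1) ::ₘ ch B := by
          rw [node_inj] at h2
          rw [h2]; exact Multiset.mem_cons_self _ _
        rcases Multiset.mem_cons.1 this with h6 | h6
        · exact Or.inl h6
        · exact Or.inr (hsB U h6)
      rw [node_inj] at h1
      rcases Multiset.cons_eq_cons.1 h1 with ⟨h6, h7⟩ | ⟨_, N, h6, h7⟩
      · -- `F` is the tail
        have sF : size F = i + 1 := by rw [← h6, sP]
        rcases e5 with h8 | h8
        · rw [← h7, node_ch, h8] at h4
          have hP : IsP Y' := IsP.sub h4 (isP_Pt (by omega))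
          rcases hP.cases1 with h9 | ⟨V, hV, h9⟩
          · have := congrArg size h9
            rw [size_leaf] at this
            omega
          · have e6 := hY' V (by rw [h9]; simp)
            have e7 : size Y' = size V + 1 := by rw [h9, size_single]
            omega
        · omega
      · -- `F` is a branch of `Y'`
        have e6 := hY' F (by rw [h6]; simp)
        rcases e5 with h8 | h8
        · rw [h8, sP] at e3
          omega
        · omega

theorem rel_homog_root {S D : RT} (h : Multiset.Rel UI (ch S) (ch D)) (hD : Homog D) : Homog S := by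
  intro E hE F hF
  obtain ⟨E', hE', h1⟩ := rel_mem h hE
  obtain ⟨F', hF', h2⟩ := rel_mem h hF
  rw [h1.size_eq, h2.size_eq]
  exact hD E' hE' F' hF'

theorem Nn_homog {B : RT} (hB : Homog B) : ∀ j, Homog (Nn j B)
  | 0 => hB
  | j + 1 => by
    rw [Nn_succ]
    intro E hE F hF
    rw [ch_node, Multiset.mem_singleton] at hE hF
    rw [hE, hF]

theorem nl_chain (hHP : Lib_HP) (hroot : Lib_root) : NL_chain := by
  intro B j hB hk
  obtain ⟨s₀, hs₀, hsB, hsz⟩ := homog_size hB hk
  have hks : 2 * s₀ ≤ Multiset.card (ch B) * s₀ := Nat.mul_le_mul_right s₀ hk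
  generalize hDj : Nn j B = D
  have hDh : Homog D := hDj ▸ Nn_homog hB j
  have s1 : size (node {D}) = size D + 1 := size_single D
  have s2 : size (node {node {D}}) = size D + 2 := by rw [size_single, s1]
  have hX : UI (node {node {D}, D}) (node (node {node {D}} ::ₘ ch D)) := by
    rw [Multiset.pair_comm, Multiset.insert_eq_cons]
    exact UI.re D {node {D}}
  refine ⟨_, _, UI.refl _, hX, ?_, ?_⟩
  · intro E hE F hF
    have e1 : size E = size D ∨ size E = size D + 1 := by
      rw [ch_node, Multiset.insert_eq_cons, Multiset.mem_cons, Multiset.mem_singleton] at hE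
      rcases hE with rfl | rfl
      · right; exact s1
      · left; rfl
    rw [ch_node, Multiset.mem_cons] at hF
    rcases hF with rfl | hF
    · omega
    · have := size_lt_of_mem hF
      omega
  · intro Z₁ Z₂ h h1 h2
    rw [ch_node] at h1 h2
    -- branches of `Z₂`
    have u2 : ∀ E ∈ ch Z₂, size E = size D + 2 ∨ size E < size D := by
      intro E hE
      obtain ⟨E', hE', hEE⟩ := rel_mem h2 hE
      rw [hEE.size_eq]
      rcases Multiset.mem_cons.1 hE' with rfl | hE'
      · left; exact s2
      · right; exact size_lt_of_mem hE'
    obtain ⟨X', as, hX', has, hc⟩ := Multiset.rel_cons_right.1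
      (show Multiset.Rel UI (ch Z₁) (node {D} ::ₘ {D}) from h1)
    obtain ⟨Y, bs, hY, hbs, hc'⟩ := Multiset.rel_cons_right.1
      (show Multiset.Rel UI as (D ::ₘ 0) from has)
    rw [Multiset.rel_zero_right] at hbs
    subst hbs hc'
    have hZ₁ : Z₁ = node (X' ::ₘ Y ::ₘ 0) := by rw [← hc, node_ch]
    have sX' : size X' = size D + 1 := by rw [hX'.size_eq, s1]
    have sY : size Y = size D := hY.size_eq
    -- conclusion from the two equalities
    have fin : X' = node {D} → Y = D → UI Z₁ (node {node {D}, D}) := by
      intro e1 e2
      rw [hZ₁, e1, e2]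
      exact UI.refl _
    rcases (ui_iff Z₁ Z₂).1 h with heq | ⟨F, M, hFM, hin⟩
    · exfalso
      have := u2 X' (by rw [← heq, hc]; simp)
      omega
    rw [hZ₁, node_inj] at hFM
    -- size of the branch towards the old root
    have hU : ∀ U S, Z₂ = node (U ::ₘ ch S) → size D < size U + 1 →
        size U = size D + 2 ∧ UI U (node {node {D}}) ∧ Multiset.Rel UI (ch S) (ch D) := by
      intro U S hUS hlt
      have e1 : size U = size D + 2 := by
        rcases u2 U (by rw [hUS]; simp) with e | e
        · exact e
        · omega
      rw [hUS, ch_node] at h2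
      have h3 := rel_cons h2 (fun E hE => by have := size_lt_of_mem hE; omega)
      exact ⟨e1, h3.1, h3.2⟩
    rcases Multiset.cons_eq_cons.1 hFM with ⟨h3, h4⟩ | ⟨_, N, h3, h4⟩
    · -- the new root is in `X'`
      subst h3 h4
      cases hin with
      | root K D' =>
        exfalso
        obtain ⟨e1, -, -⟩ := hU (node (Y ::ₘ 0)) X' rfl (by
          have : size (node (Y ::ₘ 0)) = size Y + 1 := size_single Y
          omega)
        have : size (node (Y ::ₘ 0)) = size Y + 1 := size_single Y
        omega
      | @deep _ E _ N hin =>
        obtain ⟨U, S, h5, h6, h7, h8⟩ := in_up hin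
        have sK : size (node (Y ::ₘ 0)) = size Y + 1 := size_single Y
        have e1 := h7.size_le
        rw [size_cons, sK] at e1
        have e2 := size_pos (node N)
        obtain ⟨e3, h9, h10⟩ := hU U S h5 (by omega)
        have e4 : size (node N) = 1 := by omega
        have hN : N = 0 := by
          by_contra hne
          obtain ⟨E', hE'⟩ := Multiset.exists_mem_of_ne_zero hne
          obtain ⟨N', rfl⟩ := Multiset.exists_cons_of_mem hE'
          rw [size_cons] at e4
          have e5 := size_pos E'
          have e6 := size_pos (node N')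
          omega
        subst hN
        have h11 : U = node (node (Y ::ₘ 0) ::ₘ 0) ∧ S = E := by
          rcases h8 with h8 | h8
          · exact h8
          · exfalso
            have e5 := h8.2
            rw [size_cons, sK, e4] at e5
            omega
        obtain ⟨rfl, rfl⟩ := h11
        -- `Y = D`
        have hYD : Y = D := by
          rw [← hDj] at hY h9 ⊢
          exact beta hB hk hY h9
        -- `S = D`
        have hSD : S = D := by
          have hSs : size S = size D := by
            have : size (node (S ::ₘ 0)) = size S + 1 := size_single S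
            omega
          rcases Nat.eq_zero_or_pos j with rfl | hj
          · rw [Nn_zero] at hDj
            subst hDj
            have hSh : ∀ E ∈ ch S, size E = s₀ := by
              intro E hE
              obtain ⟨E', hE', hEE⟩ := rel_mem h10 hE
              rw [hEE.size_eq]
              exact hsB E' hE'
            have r1 : UI (node (S ::ₘ 0)) (node (leaf ::ₘ ch S)) := UI.re S 0
            have r2 : UI (node {B}) (node (leaf ::ₘ ch B)) := UI.re B 0
            have r3 : UI (node (leaf ::ₘ ch S)) (node (leaf ::ₘ ch B)) :=
              r1.symm.trans (hX'.trans r2)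
            have r4 := uni _ _ r3
              (by
                intro E hE
                rw [size_cons, node_ch, size_leaf]
                rcases Multiset.mem_cons.1 hE with rfl | hE
                · rw [size_leaf]; omega
                · rw [hSh E hE]; omega)
              (by
                intro E hE
                rw [size_cons, node_ch, size_leaf]
                rcases Multiset.mem_cons.1 hE with rfl | hE
                · rw [size_leaf]; omega
                · rw [hsB E hE]; omega)
            have r5 := (Multiset.cons_inj_right _).1 r4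
            rw [← node_ch S, r5, node_ch]
          · obtain ⟨i, rfl⟩ : ∃ i, j = i + 1 := ⟨j - 1, by omega⟩
            rw [Nn_succ] at hDj
            subst hDj
            rw [ch_node] at h10
            obtain ⟨S', cs, hS', hcs, hc2⟩ := Multiset.rel_cons_right.1
              (show Multiset.Rel UI (ch S) (Nn i B ::ₘ 0) from h10)
            rw [Multiset.rel_zero_right] at hcs
            subst hcs
            have hSS : S = node {S'} := by rw [← node_ch S, hc2]; rfl
            have hX'' : UI (node {node {S'}}) (node {node {Nn i B}}) := by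
              rw [hSS] at hX'
              exact hX'
            rw [hSS, beta hB hk hS' hX'']
        refine fin ?_ hYD
        rw [hSD]
        rfl
    · -- the new root is in `Y`
      have hN0 : N = 0 := by
        have := congrArg Multiset.card h3
        simp at this
        exact this
      subst hN0
      have hF : Y = F := by
        have := Multiset.singleton_inj.1 (show ({Y} : Multiset RT) = {F} from h3)
        exact this
      subst hF
      subst h4
      obtain ⟨U, S, h5, h6, h7, h8⟩ := in_up hin
      have sK : size (node (X' ::ₘ 0)) = size X' + 1 := size_single X'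
      have e1 := h7.size_le
      rw [sK] at e1
      obtain ⟨e3, h9, h10⟩ := hU U S h5 (by omega)
      have h11 : U = node (X' ::ₘ 0) ∧ S = Y := by
        rcases h8 with h8 | h8
        · exact h8
        · exfalso
          have e5 := h8.2
          omega
      obtain ⟨rfl, rfl⟩ := h11
      exact fin (hHP _ _ hX' h9) (hroot _ _ hDh hY h10)

end Pool.Agent.Helper87K9.Drn
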