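import Pool.Agent.Helper87K9.Drn.Paths
import Pool.Agent.Helper87K9.Drn.Chain

/-!
# Project DRN, piece NLB

`nl_path : NL_path`, `nl_spider : NL_spider`, `nl_chain : Lib_HP → Lib_root → NL_chain`.
-/
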