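import Pool.Agent.Helper13K9.Drn.Lib

/-!
# Project DRN, piece NLB: basic facts on paths and on re-rooting
-/

set_option autoImplicit false

namespace Pool.Agent.Helper87K9.Drn

open Pool.Agent.Helper13K9.Drn

/-! ### `Sub` and `In` -/

theorem sub_node_cons (K : RT) (N : Multiset RT) : Sub K (node (K ::ₘ N)) :=
  Sub.deep (by rw [ch_node]; exact Multiset.mem_cons_self _ _) Sub.refl

/-- The new root of a re-rooted tree: `U` is the branch towards the old root. -/
theorem in_up {K D Y : RT} (h : In K D Y) : ∃ U S, Y = node (U ::ₘ ch S) ∧ Sub S D ∧ Sub K U ∧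
    ((U = K ∧ S = D) ∨ (size S < size D ∧ size K < size U)) := by
  induction h with
  | root K D => exact ⟨K, D, rfl, Sub.refl, Sub.refl, Or.inl ⟨rfl, rfl⟩⟩
  | @deep K E Y N _ ih =>
    obtain ⟨U, S, h1, h2, h3, h4⟩ := ih
    have e1 : size K < size (node (K ::ₘ N)) := size_lt_of_mem (by simp)
    have e2 : size E < size (node (E ::ₘ N)) := size_lt_of_mem (by simp)
    refine ⟨U, S, h1, Sub.deep (by simp) h2, (sub_node_cons K N).trans h3, Or.inr ⟨?_, ?_⟩⟩
    · exact lt_of_le_of_lt h2.size_le e2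
    · exact lt_of_lt_of_le e1 h3.size_le

/-! ### `Rel` -/

theorem rel_mem {M N : Multiset RT} (h : Multiset.Rel UI M N) {D : RT} (hD : D ∈ M) :
    ∃ E ∈ N, UI D E := Multiset.exists_mem_of_rel_of_mem h hD

theorem rel_card {M N : Multiset RT} (h : Multiset.Rel UI M N) :
    Multiset.card M = Multiset.card N := Multiset.card_eq_card_of_rel h

/-- a big branch is matched with the big branch -/
theorem rel_cons {A B : RT} {M N : Multiset RT} (h : Multiset.Rel UI (A ::ₘ M) (B ::ₘ N))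
    (hN : ∀ E ∈ N, size A ≠ size E) : UI A B ∧ Multiset.Rel UI M N := by
  obtain ⟨b, bs, h1, h2, h3⟩ := Multiset.rel_cons_left.1 h
  rcases Multiset.cons_eq_cons.1 h3 with ⟨h4, h5⟩ | ⟨_, P, h4, h5⟩
  · rw [h4, h5]
    exact ⟨h1, h2⟩
  · exact absurd h1.size_eq (hN b (by rw [h4]; exact Multiset.mem_cons_self _ _))

/-! ### Paths -/

@[simp] theorem ch_leaf : ch leaf = 0 := ch_node 0

@[simp] theorem Pt_one : Pt 1 = leaf := rfl

theorem Pt_succ {k : ℕ} (h : 1 ≤ k) : Pt (k + 1) = node {Pt k} := by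
  obtain ⟨m, rfl⟩ : ∃ m, k = m + 1 := ⟨k - 1, by omega⟩
  rfl

theorem ch_Pt_succ {k : ℕ} (h : 1 ≤ k) : ch (Pt (k + 1)) = {Pt k} := by
  rw [Pt_succ h, ch_node]

theorem size_Pt : ∀ {k : ℕ}, 1 ≤ k → size (Pt k) = k
  | 1, _ => by simp
  | k + 2, _ => by
    rw [Pt_succ (by omega), size_node]
    simp only [Multiset.map_singleton, Multiset.sum_singleton]
    rw [size_Pt (by omega)]
    omega

/-- a path, rooted at an end -/
def IsP (X : RT) : Prop := ∃ k, 1 ≤ k ∧ X = Pt k

/-- a path, rooted at any vertex -/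
def IsU (X : RT) : Prop := IsP X ∨ ∃ i j, 1 ≤ i ∧ 1 ≤ j ∧ X = node {Pt i, Pt j}

theorem isP_leaf : IsP leaf := ⟨1, le_refl _, rfl⟩

theorem isP_Pt {k : ℕ} (h : 1 ≤ k) : IsP (Pt k) := ⟨k, h, rfl⟩

theorem IsP.eq_size {X : RT} (h : IsP X) : X = Pt (size X) := by
  obtain ⟨k, hk, rfl⟩ := h
  rw [size_Pt hk]

theorem IsP.cases1 {X : RT} (h : IsP X) : X = leaf ∨ ∃ V, IsP V ∧ X = node {V} := by
  obtain ⟨k, hk, rfl⟩ := h
  rcases Nat.lt_or_ge k 2 with h2 | h2
  · obtain rfl : k = 1 := by omega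
    exact Or.inl rfl
  · obtain ⟨m, rfl⟩ : ∃ m, k = m + 1 := ⟨k - 1, by omega⟩
    exact Or.inr ⟨Pt m, ⟨m, by omega, rfl⟩, Pt_succ (by omega)⟩

theorem IsP.up {X : RT} (h : IsP X) : IsP (node {X}) := by
  obtain ⟨k, hk, rfl⟩ := h
  exact ⟨k + 1, by omega, (Pt_succ hk).symm⟩

theorem IsP.card_le {X : RT} (h : IsP X) : Multiset.card (ch X) ≤ 1 := by
  rcases h.cases1 with rfl | ⟨V, _, rfl⟩ <;> simp

theorem IsP.of_mem {X D : RT} (h : IsP X) (hD : D ∈ ch X) : IsP D := by
  rcases h.cases1 with rfl | ⟨V, hV, rfl⟩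
  · simp at hD
  · rw [ch_node, Multiset.mem_singleton] at hD
    rw [hD]
    exact hV

theorem IsP.of_node {V : RT} (h : IsP (node {V})) : IsP V :=
  h.of_mem (by simp)

theorem IsP.sub {X K : RT} (h : Sub K X) (hX : IsP X) : IsP K := by
  induction h with
  | refl => exact hX
  | deep hD _ ih => exact ih (hX.of_mem hD)

theorem IsU.of_mem {X D : RT} (h : IsU X) (hD : D ∈ ch X) : IsP D := by
  rcases h with h | ⟨i, j, hi, hj, rfl⟩
  · exact h.of_mem hD
  · rw [ch_node, Multiset.insert_eq_cons, Multiset.mem_cons, Multiset.mem_singleton] at hD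
    rcases hD with rfl | rfl
    · exact isP_Pt hi
    · exact isP_Pt hj

theorem IsU.sub {X K : RT} (h : Sub K X) (hX : IsU X) : K = X ∨ IsP K := by
  cases h with
  | refl => exact Or.inl rfl
  | deep hD h => exact Or.inr (IsP.sub h (hX.of_mem hD))

theorem IsU.isP_of_card {X : RT} (h : IsU X) (hc : Multiset.card (ch X) ≤ 1) : IsP X := by
  rcases h with h | ⟨i, j, hi, hj, rfl⟩
  · exact h
  · simp at hc

theorem IsU.card_le {X : RT} (h : IsU X) : Multiset.card (ch X) ≤ 2 := by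
  rcases h with h | ⟨i, j, hi, hj, rfl⟩
  · exact h.card_le.trans (by omega)
  · simp

theorem isU_two {i j : ℕ} (hi : 1 ≤ i) (hj : 1 ≤ j) : IsU (node {Pt i, Pt j}) :=
  Or.inr ⟨i, j, hi, hj, rfl⟩

theorem IsU.re {X Y : RT} (h : Re X Y) (hX : IsU X) : IsU Y := by
  cases h with
  | mk D M =>
    have hD : IsP D := hX.of_mem (by simp)
    have hN : Multiset.card M ≤ 1 := by
      have := hX.card_le
      rw [ch_node, Multiset.card_cons] at this
      omega
    have hM : ∀ E ∈ M, IsP E := fun E hE => hX.of_mem (by simp [hE])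
    have hM' : IsP (node M) := by
      rcases Nat.lt_or_ge (Multiset.card M) 1 with h0 | h0
      · have : M = 0 := Multiset.card_eq_zero.1 (by omega)
        rw [this]
        exact isP_leaf
      · obtain ⟨E, rfl⟩ := Multiset.card_eq_one.1 (by omega : Multiset.card M = 1)
        exact (hM E (by simp)).up
    rcases hD.cases1 with rfl | ⟨V, hV, rfl⟩
    · left
      rw [ch_leaf, Multiset.cons_zero]
      exact hM'.up
    · right
      obtain ⟨i, hi, h1⟩ := hM'
      obtain ⟨j, hj, h2⟩ := hV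
      refine ⟨i, j, hi, hj, ?_⟩
      rw [ch_node, h1, h2]
      rfl

theorem IsU.ui {X Y : RT} (h : UI X Y) (hX : IsU X) : IsU Y := by
  unfold UI at h
  induction h with
  | refl => exact hX
  | tail _ h2 ih => exact ih.re h2

theorem isU_of_ui_Pt {X : RT} {k : ℕ} (hk : 1 ≤ k) (h : UI X (Pt k)) : IsU X :=
  IsU.ui h.symm (Or.inl (isP_Pt hk))

theorem ui_path : ∀ (i j : ℕ), 1 ≤ i → 1 ≤ j → UI (node {Pt i, Pt j}) (Pt (i + j + 1)) := by
  intro i
  induction i with
  | zero => intro j h; omega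
  | succ i ih =>
    intro j _ hj
    rcases Nat.eq_zero_or_pos i with rfl | hi
    · have h := UI.re (Pt 1) {Pt j}
      rw [← Pt_succ hj, Pt_one, ch_leaf, Multiset.cons_zero, ← Pt_succ (by omega)] at h
      have e : 0 + 1 + j + 1 = j + 1 + 1 := by omega
      rw [e, zero_add, Pt_one, Multiset.insert_eq_cons]
      exact h
    · have h := UI.re (Pt (i + 1)) {Pt j}
      rw [← Pt_succ hj, ch_Pt_succ hi] at h
      have h' := ih (j + 1) hi (by omega)
      have e : i + (j + 1) + 1 = i + 1 + j + 1 := by omega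
      rw [e, Multiset.pair_comm] at h'
      exact UI.trans h h'

/-- two paths which are isomorphic unrooted are equal -/
theorem IsP.eq_of_ui {X Y : RT} (hX : IsP X) (hY : IsP Y) (h : UI X Y) : X = Y := by
  rw [hX.eq_size, hY.eq_size, h.size_eq]

theorem rel_isP {M N : Multiset RT} (h : Multiset.Rel UI M N) (hM : ∀ D ∈ M, IsP D)
    (hN : ∀ D ∈ N, IsP D) : M = N := by
  rw [← Multiset.rel_eq]
  exact h.mono (fun a ha b hb hab => (hM a ha).eq_of_ui (hN b hb) hab)

theorem two_isP {F F' : RT} (hF : IsP F) (hF' : IsP F') :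
    UI (node {F, F'}) (Pt (size F + size F' + 1)) := by
  have h := ui_path (size F) (size F') (size_pos F) (size_pos F')
  rwa [← hF.eq_size, ← hF'.eq_size] at h

end Pool.Agent.Helper87K9.Drn
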