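import Pool.Agent.Helper87K9.Drn.Base

/-!
# Project DRN, piece NLB: counting the sizes of the proper subtrees

`cnt v X` is the number of proper subtrees (branches, branches of branches, ...) of `X` with `v`
vertices. Re-rooting replaces one such subtree by its complement, so `cnt v X + cnt w X` with
`v + w = size X` does not depend on the root.
-/

set_option autoImplicit false

namespace Pool.Agent.Helper87K9.Drn

open Pool.Agent.Helper13K9.Drn

/-- number of proper subtrees with `v` vertices -/
def cnt (v : ℕ) (X : RT) : ℕ :=
  ((ch X).attach.map (fun D => (if size D.1 = v then 1 else 0) + cnt v D.1)).sum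
termination_by (show ℕ from X)
decreasing_by exact mem_ch_lt D.2

theorem cnt_eq (v : ℕ) (X : RT) :
    cnt v X = ((ch X).map (fun D => (if size D = v then 1 else 0) + cnt v D)).sum := by
  rw [cnt]
  congr 1
  exact Multiset.attach_map_val' (ch X) (fun D => (if size D = v then 1 else 0) + cnt v D)

theorem cnt_cons (v : ℕ) (D : RT) (M : Multiset RT) :
    cnt v (node (D ::ₘ M)) = (if size D = v then 1 else 0) + cnt v D + cnt v (node M) := by
  rw [cnt_eq, cnt_eq v (node M), ch_node, ch_node, Multiset.map_cons, Multiset.sum_cons]

theorem cnt_single (v : ℕ) (D : RT) :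
    cnt v (node {D}) = (if size D = v then 1 else 0) + cnt v D := by
  rw [cnt_eq, ch_node, Multiset.map_singleton, Multiset.sum_singleton]

theorem cnt_re {X Y : RT} (h : Re X Y) {v w : ℕ} (hvw : v + w = size X) :
    cnt v X + cnt w X = cnt v Y + cnt w Y := by
  cases h with
  | mk D M =>
    rw [size_cons] at hvw
    rw [cnt_cons, cnt_cons, cnt_cons, cnt_cons, node_ch]
    have e1 : (if size D = v then 1 else 0) = (if size (node M) = w then 1 else 0) := by
      by_cases h1 : size D = v
      · rw [if_pos h1, if_pos (by omega)]
      · rw [if_neg h1, if_neg (by omega)]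
    have e2 : (if size D = w then 1 else 0) = (if size (node M) = v then 1 else 0) := by
      by_cases h1 : size D = w
      · rw [if_pos h1, if_pos (by omega)]
      · rw [if_neg h1, if_neg (by omega)]
    rw [e1, e2]
    omega

theorem cnt_ui {X Y : RT} (h : UI X Y) {v w : ℕ} (hvw : v + w = size X) :
    cnt v X + cnt w X = cnt v Y + cnt w Y := by
  have h0 : size X = size Y ∧ cnt v X + cnt w X = cnt v Y + cnt w Y := by
    unfold UI at h
    induction h with
    | refl => exact ⟨rfl, rfl⟩
    | tail _ h2 ih => exact ⟨ih.1.trans h2.size_eq, ih.2.trans (cnt_re h2 (hvw.trans ih.1))⟩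
  exact h0.2

theorem cnt_big {v : ℕ} : ∀ (X : RT), size X ≤ v → cnt v X = 0 := by
  intro X
  induction X using RT.ind with
  | h M ih =>
    intro hv
    rw [cnt_eq, ch_node, Multiset.sum_eq_zero_iff]
    intro x hx
    obtain ⟨D, hD, rfl⟩ := Multiset.mem_map.1 hx
    have h1 : size D < size (node M) := size_lt_of_mem (by rw [ch_node]; exact hD)
    rw [if_neg (by omega), ih D hD (by omega), zero_add]

theorem cnt_zero (X : RT) : cnt 0 X = 0 := by
  induction X using RT.ind with
  | h M ih =>
    rw [cnt_eq, ch_node, Multiset.sum_eq_zero_iff]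
    intro x hx
    obtain ⟨D, hD, rfl⟩ := Multiset.mem_map.1 hx
    have h1 := size_pos D
    rw [if_neg (by omega), ih D hD, zero_add]

theorem cnt_pos_of_mem {D X : RT} (h : D ∈ ch X) : 1 ≤ cnt (size D) X := by
  obtain ⟨M, hM⟩ := Multiset.exists_cons_of_mem h
  rw [← node_ch X, hM, cnt_cons, if_pos rfl]
  omega

/-- `cnt v` vanishes above the size of the branches -/
theorem cnt_of_le {s v : ℕ} {X : RT} (h : ∀ D ∈ ch X, size D ≤ s) (hv : s < v) : cnt v X = 0 := by
  rw [cnt_eq, Multiset.sum_eq_zero_iff]
  intro x hx
  obtain ⟨D, hD, rfl⟩ := Multiset.mem_map.1 hx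
  have h1 := h D hD
  rw [if_neg (by omega), cnt_big D (by omega), zero_add]

/-- two re-rooting relations determine the sizes of the proper subtrees -/
theorem cnt_eq_of_ui {Y D : RT} (h : UI Y D) (h' : UI (node {node {Y}}) (node {node {D}})) :
    ∀ v, cnt v Y = cnt v D := by
  have hs := h.size_eq
  have s1 : size (node {Y}) = size Y + 1 := by
    rw [size_node, Multiset.map_singleton, Multiset.sum_singleton]; omega
  have s2 : size (node {node {Y}}) = size Y + 2 := by
    rw [size_node, Multiset.map_singleton, Multiset.sum_singleton, s1]; omega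
  have s1' : size (node {D}) = size D + 1 := by
    rw [size_node, Multiset.map_singleton, Multiset.sum_singleton]; omega
  -- the two relations
  have r1 : ∀ v w, v + w = size Y → cnt v Y + cnt w Y = cnt v D + cnt w D :=
    fun v w hvw => cnt_ui h hvw
  have r2 : ∀ v w, v + w = size Y + 2 → cnt v Y + cnt w Y = cnt v D + cnt w D := by
    intro v w hvw
    have := cnt_ui h' (v := v) (w := w) (by rw [s2]; exact hvw)
    rw [cnt_single, cnt_single, cnt_single, cnt_single, cnt_single, cnt_single, cnt_single,
      cnt_single, s1, s1', ← hs] at this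
    omega
  have step : ∀ u, u ≤ size Y → cnt (u + 2) Y = cnt (u + 2) D → cnt u Y = cnt u D := by
    intro u hu h1
    have e1 := r1 u (size Y - u) (by omega)
    have e2 := r2 (u + 2) (size Y - u) (by omega)
    omega
  have top : ∀ v, size Y ≤ v → cnt v Y = cnt v D := by
    intro v hv
    rw [cnt_big Y hv, cnt_big D (by omega)]
  have key : ∀ a v, size Y ≤ v + 2 * a → cnt v Y = cnt v D := by
    intro a
    induction a with
    | zero => intro v hv; exact top v (by omega)
    | succ a ih =>
      intro v hv
      rcases Nat.lt_or_ge v (size Y) with h1 | h1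
      · exact step v (by omega) (ih (v + 2) (by omega))
      · exact top v h1
  intro v
  exact key (size Y) v (by omega)

end Pool.Agent.Helper87K9.Drn
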