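import Pool.Agent.Helper87K9.Drn.Base

/-!
# Project DRN, piece NLB: paths and spiders with three legs
-/

set_option autoImplicit false

namespace Pool.Agent.Helper87K9.Drn

open Pool.Agent.Helper13K9.Drn

/-- `node {Pt i, Pt j}` and `node {Pt (i + 1), Pt (j - 1)}` -/
theorem nl_path_aux (i j : ℕ) (hj : 2 ≤ j) (hji : j ≤ i) (hij : i ≤ j + 1) :
    NLgood (Pt (i + j + 1)) := by
  have hX1 : UI (node {Pt i, Pt j}) (Pt (i + j + 1)) := ui_path i j (by omega) (by omega)
  have hX2 : UI (node {Pt (i + 1), Pt (j - 1)}) (Pt (i + j + 1)) := by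
    have := ui_path (i + 1) (j - 1) (by omega) (by omega)
    have e : i + 1 + (j - 1) + 1 = i + j + 1 := by omega
    rwa [e] at this
  have s1 : size (Pt i) = i := size_Pt (by omega)
  have s2 : size (Pt j) = j := size_Pt (by omega)
  have s3 : size (Pt (i + 1)) = i + 1 := size_Pt (by omega)
  have s4 : size (Pt (j - 1)) = j - 1 := size_Pt (by omega)
  have hsize : ∀ D ∈ ch (node {Pt i, Pt j}), ∀ E ∈ ch (node {Pt (i + 1), Pt (j - 1)}),
      size D ≠ size E := by
    intro D hD E hE
    rw [ch_node, Multiset.insert_eq_cons, Multiset.mem_cons, Multiset.mem_singleton] at hD hE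
    rcases hD with rfl | rfl <;> rcases hE with rfl | rfl <;> omega
  refine ⟨_, _, hX1.symm, hX2.symm, hsize, ?_⟩
  intro Z₁ Z₂ h h1 h2
  -- all branches are unrooted paths
  have u1 : ∀ D ∈ ch Z₁, IsU D := by
    intro D hD
    obtain ⟨E, hE, hDE⟩ := rel_mem h1 hD
    rw [ch_node, Multiset.insert_eq_cons, Multiset.mem_cons, Multiset.mem_singleton] at hE
    rcases hE with rfl | rfl
    · exact isU_of_ui_Pt (by omega) hDE
    · exact isU_of_ui_Pt (by omega) hDE
  have u2 : ∀ D ∈ ch Z₂, IsU D ∧ (size D = i + 1 ∨ size D = j - 1) := by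
    intro D hD
    obtain ⟨E, hE, hDE⟩ := rel_mem h2 hD
    have hs := hDE.size_eq
    rw [ch_node, Multiset.insert_eq_cons, Multiset.mem_cons, Multiset.mem_singleton] at hE
    rcases hE with rfl | rfl
    · exact ⟨isU_of_ui_Pt (by omega) hDE, by omega⟩
    · exact ⟨isU_of_ui_Pt (by omega) hDE, by omega⟩
  rcases (ui_iff Z₁ Z₂).1 h with rfl | ⟨F, M, rfl, hin⟩
  · -- impossible: branch sizes
    exfalso
    obtain ⟨a, as, ha, has, hc⟩ := Multiset.rel_cons_right.1
      (show Multiset.Rel UI (ch Z₁) (Pt i ::ₘ {Pt j}) by rwa [ch_node] at h1)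
    obtain ⟨E, hE, hDE⟩ := rel_mem h2 (D := a) (by rw [hc]; exact Multiset.mem_cons_self _ _)
    exact hsize (Pt i) (by simp) E hE (by rw [← ha.size_eq, hDE.size_eq])
  · rw [ch_node] at u1
    rw [ch_node, ch_node] at h1
    have hMc : Multiset.card M = 1 := by
      have := rel_card h1
      simp at this
      simpa using this
    obtain ⟨F', rfl⟩ := Multiset.card_eq_one.1 hMc
    have hZ2c : Multiset.card (ch Z₂) = 2 := by
      have := rel_card h2
      simpa using this
    have hFU : IsU F := u1 F (by simp)
    have hF'U : IsU F' := u1 F' (by simp)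
    have htot : size F + size F' = i + j := by
      have := h.size_eq.trans (h.symm.size_eq.trans rfl)
      have e1 : (Multiset.map size (F ::ₘ {F'})).sum = (Multiset.map size {Pt i, Pt j}).sum := by
        obtain ⟨a, as, ha, has, hc⟩ := Multiset.rel_cons_right.1
          (show Multiset.Rel UI (F ::ₘ {F'}) (Pt i ::ₘ {Pt j}) from h1)
        obtain ⟨b, bs, hb, hbs, hc'⟩ := Multiset.rel_cons_right.1
          (show Multiset.Rel UI as (Pt j ::ₘ 0) from has)
        rw [Multiset.rel_zero_right] at hbs
        rw [hc, hc', hbs]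
        simp [ha.size_eq, hb.size_eq]
      simpa [s1, s2] using e1
    have hsz : (size F = i ∧ size F' = j) ∨ (size F = j ∧ size F' = i) := by
      obtain ⟨E, hE, hDE⟩ := rel_mem h1 (D := F) (by simp)
      have := hDE.size_eq
      rw [Multiset.insert_eq_cons, Multiset.mem_cons, Multiset.mem_singleton] at hE
      rcases hE with rfl | rfl
      · left; omega
      · right; omega
    have fin : IsP F → IsP F' → UI (node (F ::ₘ {F'})) (Pt (i + j + 1)) := by
      intro hF hF'
      have := two_isP hF hF'
      rwa [htot] at this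
    cases hin with
    | root K D =>
      have hU := (u2 (node {F'}) (by simp)).1
      have hF' : IsP F' := (hU.isP_of_card (by simp)).of_node
      have hF : IsP F := by
        refine hFU.isP_of_card ?_
        rw [ch_node, Multiset.card_cons] at hZ2c
        omega
      exact fin hF hF'
    | @deep _ E _ N hin =>
      obtain ⟨U, S, h3, h4, h5, h6⟩ := in_up hin
      have hUu := u2 U (by rw [h3]; simp)
      rcases hFU with hFP | ⟨p, q, hp, hq, hpq⟩
      · -- `F` is a path rooted at an end
        have hN : N = 0 := by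
          have := hFP.card_le
          rw [ch_node, Multiset.card_cons] at this
          exact Multiset.card_eq_zero.1 (by omega)
        subst hN
        have hKU : IsU (node (node {F'} ::ₘ 0)) := by
          rcases hUu.1.sub h5 with h7 | h7
          · rw [h7]; exact hUu.1
          · exact Or.inl h7
        have hKP : IsP (node (node {F'} ::ₘ 0)) := hKU.isP_of_card (by simp)
        have hKP' : IsP (node {F'}) := hKP.of_mem (by simp)
        exact fin hFP hKP'.of_node
      · exfalso
        rw [node_inj] at hpq
        have hEN : ∃ p' q', 1 ≤ p' ∧ 1 ≤ q' ∧ E = Pt p' ∧ N = {Pt q'} := by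
          rcases Multiset.cons_eq_cons.1 (show E ::ₘ N = Pt p ::ₘ {Pt q} from hpq) with
            ⟨h7, h8⟩ | ⟨_, P, h7, h8⟩
          · exact ⟨p, q, hp, hq, h7, h8⟩
          · have h9 : P = 0 := by
              have := congrArg Multiset.card h8
              simp at this
              exact this
            subst h9
            have h10 : E = Pt q := by simpa using h8.symm
            exact ⟨q, p, hq, hp, h10, h7⟩
        obtain ⟨p', q', hp', hq', rfl, rfl⟩ := hEN
        have s5 : size (Pt p') = p' := size_Pt hp'
        have s6 : size (Pt q') = q' := size_Pt hq'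
        have hK : node (node {F'} ::ₘ {Pt q'}) = U := by
          rcases hUu.1.sub h5 with h7 | h7
          · exact h7
          · have := h7.card_le
            simp at this
        have sK : size (node (node {F'} ::ₘ {Pt q'})) = size F' + q' + 2 := by
          rw [size_cons]
          simp [s6]
          omega
        have sF : size (node (Pt p' ::ₘ {Pt q'})) = p' + q' + 1 := by
          rw [size_cons]
          simp [s5, s6]
          omega
        have h7 := hUu.2
        rw [← hK, sK] at h7
        rw [sF] at hsz htot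
        omega

theorem nl_path : NL_path := by
  intro n hn
  rcases Nat.even_or_odd' n with ⟨m, rfl | rfl⟩
  · have := nl_path_aux m (m - 1) (by omega) (by omega) (by omega)
    have e : m + (m - 1) + 1 = 2 * m := by omega
    rwa [e] at this
  · have := nl_path_aux m m (by omega) (by omega) (by omega)
    have e : m + m + 1 = 2 * m + 1 := by omega
    rwa [e] at this

theorem nl_spider : NL_spider := by
  intro i j l hi hij hjl _
  have s1 : size (Pt i) = i := size_Pt (by omega)
  have s2 : size (Pt j) = j := size_Pt (by omega)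
  have s3 : size (Pt l) = l := size_Pt (by omega)
  have sK : size (node {Pt j, Pt l}) = j + l + 1 := by
    rw [Multiset.insert_eq_cons, size_cons]
    simp [s2, s3]
    omega
  have hX : UI (node {Pt i, Pt j, Pt l}) (node (node {Pt j, Pt l} ::ₘ ch (Pt i))) :=
    UI.re (Pt i) {Pt j, Pt l}
  have m1 : ∀ D ∈ ch (node {Pt i, Pt j, Pt l}), D = Pt i ∨ D = Pt j ∨ D = Pt l := by
    intro D hD
    rw [ch_node] at hD
    simpa using hD
  have hsize : ∀ D ∈ ch (node {Pt i, Pt j, Pt l}),
      ∀ E ∈ ch (node (node {Pt j, Pt l} ::ₘ ch (Pt i))), size D ≠ size E := by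
    intro D hD E hE
    have h1 : i ≤ size D ∧ size D ≤ l := by
      rcases m1 D hD with rfl | rfl | rfl <;> omega
    rw [ch_node, Multiset.mem_cons] at hE
    rcases hE with rfl | hE
    · omega
    · have := size_lt_of_mem hE
      omega
  refine ⟨_, _, UI.refl _, hX, hsize, ?_⟩
  intro Z₁ Z₂ h h1 h2
  have u1 : ∀ D ∈ ch Z₁, IsU D := by
    intro D hD
    obtain ⟨E, hE, hDE⟩ := rel_mem h1 hD
    rcases m1 E hE with rfl | rfl | rfl
    · exact isU_of_ui_Pt (by omega) hDE
    · exact isU_of_ui_Pt (by omega) hDE
    · exact isU_of_ui_Pt (by omega) hDE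
  have u2 : ∀ D ∈ ch Z₂, IsU D := by
    intro D hD
    obtain ⟨E, hE, hDE⟩ := rel_mem h2 hD
    rw [ch_node, Multiset.mem_cons] at hE
    rcases hE with rfl | hE
    · exact IsU.ui hDE.symm (isU_two (by omega) (by omega))
    · exact IsU.ui hDE.symm (Or.inl ((isP_Pt hi).of_mem hE))
  rcases (ui_iff Z₁ Z₂).1 h with rfl | ⟨F, M, rfl, hin⟩
  · exfalso
    obtain ⟨a, as, ha, has, hc⟩ := Multiset.rel_cons_right.1
      (show Multiset.Rel UI (ch Z₁) (Pt i ::ₘ {Pt j, Pt l}) by rwa [ch_node] at h1)
    obtain ⟨E, hE, hDE⟩ := rel_mem h2 (D := a) (by rw [hc]; exact Multiset.mem_cons_self _ _)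
    exact hsize (Pt i) (by simp) E hE (by rw [← ha.size_eq, hDE.size_eq])
  · rw [ch_node] at u1
    rw [ch_node, ch_node] at h1
    have hMc : Multiset.card M = 2 := by
      have := rel_card h1
      simp at this
      simpa using this
    obtain ⟨U, S, h3, h4, h5, h6⟩ := in_up hin
    have hUu := u2 U (by rw [h3]; simp)
    have hK : node M = U := by
      rcases hUu.sub h5 with h7 | h7
      · exact h7
      · have := h7.card_le
        rw [ch_node] at this
        omega
    have hS : S = F := by
      rcases h6 with h6 | h6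
      · exact h6.2
      · rw [hK] at h6
        exact absurd h6.2 (lt_irrefl _)
    subst hS
    have hFP : IsP S := by
      refine (u1 S (by simp)).isP_of_card ?_
      have h7 := rel_card h2
      have h8 := (isP_Pt hi).card_le
      rw [h3, ch_node, ch_node, Multiset.card_cons, Multiset.card_cons] at h7
      omega
    have hMP : ∀ D ∈ M, IsP D := by
      intro D hD
      refine hUu.of_mem (D := D) ?_
      rw [← hK, ch_node]
      exact hD
    have key : S ::ₘ M = {Pt i, Pt j, Pt l} := by
      refine rel_isP h1 ?_ ?_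
      · intro D hD
        rcases Multiset.mem_cons.1 hD with rfl | hD
        · exact hFP
        · exact hMP D hD
      · intro D hD
        rcases m1 D (by rw [ch_node]; exact hD) with rfl | rfl | rfl
        · exact isP_Pt hi
        · exact isP_Pt (by omega)
        · exact isP_Pt (by omega)
    rw [key]
    exact UI.refl _

end Pool.Agent.Helper87K9.Drn
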